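import Mathlib
import Pool.Agent.Q87.LipSub

/-!
# MP_b108d3: hypercyclic subspaces for composition operators on little Lipschitz spaces

If `|λ| ≤ 1` and `λ C_φ` is hypercyclic on the little Lipschitz space of a rooted tree, then it has a
hypercyclic subspace.
-/

set_option autoImplicit false

namespace Pool.Agent.Results.MP_b108d3_an.HypercyclicSubspace

open Q87.LipTree

/-- A hypercyclic subspace for `A`: a closed infinite-dimensional subspace all of whose nonzero
vectors have a dense orbit. -/
def HasHypercyclicSubspace {X : Type*} [NormedAddCommGroup X] [NormedSpace ℂ X]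
    (A : X →L[ℂ] X) : Prop :=
  ∃ M : Submodule ℂ X, IsClosed (M : Set X) ∧ ¬ FiniteDimensional ℂ M ∧
    ∀ f ∈ M, f ≠ 0 → Dense (Set.range fun n : ℕ => (A ^ n) f)

/-- **Positive answer to Q1 of MP_b108d3.** Let `T` be a rooted tree (on an infinite vertex set `V`),
`φ` a self-map of `V` that induces a bounded composition operator `C` on the little Lipschitz space
of `T`, and `|λ| ≤ 1`. If `λ C` is hypercyclic, it has a hypercyclic subspace. -/
theorem result.{u} {V : Type u} [Infinite V] (T : RTree V) (φ : V → V)
    (C : LipZero T →L[ℂ] LipZero T) (hC : ∀ (f : LipZero T) (v : V), C f v = f (φ v))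
    (lam : ℂ) (hlam : ‖lam‖ ≤ 1) (hyp : Hypercyclic (lam • C)) :
    HasHypercyclicSubspace (lam • C) :=
  exists_hypercyclic_subspace hC hlam hyp

end Pool.Agent.Results.MP_b108d3_an.HypercyclicSubspace
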